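import Mathlib

set_option autoImplicit false

namespace Pool.Agent.Results.MP_f45ea1_an.SemiGreedyNotAlmostGreedy

open Finset

/-! ### Definitions used in the statement -/

/-- A quasi-norm on a vector space `X` over `𝕜`: a nonnegative, definite, absolutely homogeneous
function satisfying the triangle inequality up to a constant factor. -/
structure QuasiNorm (𝕜 X : Type) [NormedField 𝕜] [AddCommGroup X] [Module 𝕜 X] where
  /-- the value of the quasi-norm -/
  val : X → ℝ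
  nonneg : ∀ v, 0 ≤ val v
  eq_zero_of_val : ∀ v, val v = 0 → v = 0
  smul : ∀ (c : 𝕜) (v : X), val (c • v) = ‖c‖ * val v
  triangle : ∃ K : ℝ, ∀ v w, val (v + w) ≤ K * (val v + val w)

section defs

variable {𝕜 X : Type} [NormedField 𝕜] [AddCommGroup X] [Module 𝕜 X]

/-- Completeness: every Cauchy sequence converges. A vector space with a complete quasi-norm is a
quasi-Banach space. -/
def IsComplete (q : QuasiNorm 𝕜 X) : Prop :=
  ∀ u : ℕ → X, (∀ ε > 0, ∃ N, ∀ m ≥ N, ∀ n ≥ N, q.val (u m - u n) < ε) →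
    ∃ v, ∀ ε > 0, ∃ N, ∀ n ≥ N, q.val (u n - v) < ε

/-- `(x n)` with the coordinate functionals `(f n)` is a (semi-normalized) Markushevich basis:
biorthogonal, with dense linear span, total (the functionals separate points) and with
`sup_n max (‖x n‖, ‖f n‖) < ∞`. -/
structure IsMarkushevichBasis (q : QuasiNorm 𝕜 X) (x : ℕ → X) (f : ℕ → (X →ₗ[𝕜] 𝕜)) : Prop where
  biorthogonal : ∀ j n, f j (x n) = if j = n then 1 else 0
  dense : ∀ v : X, ∀ ε > 0, ∃ w ∈ Submodule.span 𝕜 (Set.range x), q.val (v - w) < ε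
  total : ∀ v : X, (∀ n, f n v = 0) → v = 0
  bounded : ∃ M : ℝ, ∀ n, q.val (x n) ≤ M ∧ ∀ v, ‖f n v‖ ≤ M * q.val v

/-- `A` is a greedy set of `v`. -/
def IsGreedySet (f : ℕ → (X →ₗ[𝕜] 𝕜)) (v : X) (A : Finset ℕ) : Prop :=
  ∀ n ∈ A, ∀ j, j ∉ A → ‖f j v‖ ≤ ‖f n v‖

/-- The error `σ_m(v)` of the best `m`-term approximation. -/
noncomputable def bestError (q : QuasiNorm 𝕜 X) (x : ℕ → X) (m : ℕ) (v : X) : ℝ :=
  sInf {r : ℝ | ∃ (B : Finset ℕ) (a : ℕ → 𝕜), B.card ≤ m ∧ r = q.val (v - ∑ n ∈ B, a n • x n)}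

/-- The basis is semi-greedy: for some `C`, for every `v` and every finite greedy set `A` of `v`
some coefficients `a` supported on `A` give
`‖v - ∑_{n ∈ A} a n x n‖ ≤ C σ_{|A|}(v)`. -/
def IsSemiGreedy (q : QuasiNorm 𝕜 X) (x : ℕ → X) (f : ℕ → (X →ₗ[𝕜] 𝕜)) : Prop :=
  ∃ C : ℝ, ∀ (v : X) (A : Finset ℕ), IsGreedySet f v A →
    ∃ a : ℕ → 𝕜, q.val (v - ∑ n ∈ A, a n • x n) ≤ C * bestError q x A.card v

/-- The basis is almost-greedy: for some `C`, for every `v` and every finite greedy set `A` of `v`,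
`‖v - P_A v‖ ≤ C ‖v - P_B v‖` for all `B` with `|B| ≤ |A|`, where
`P_B v = ∑_{n ∈ B} f n v • x n`. -/
def IsAlmostGreedy (q : QuasiNorm 𝕜 X) (x : ℕ → X) (f : ℕ → (X →ₗ[𝕜] 𝕜)) : Prop :=
  ∃ C : ℝ, ∀ (v : X) (A : Finset ℕ), IsGreedySet f v A → ∀ B : Finset ℕ, B.card ≤ A.card →
    q.val (v - ∑ n ∈ A, f n v • x n) ≤ C * q.val (v - ∑ n ∈ B, f n v • x n)

end defs

/-! ### The construction -/

section construction

variable {𝕜 : Type} [RCLike 𝕜]

/-- hard threshold -/
noncomputable def S (t : ℝ) (z : 𝕜) : 𝕜 := if ‖z‖ ≤ t then z else 0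

lemma S_zero (t : ℝ) : S t (0 : 𝕜) = 0 := by simp [S]

lemma norm_S_le (t : ℝ) (z : 𝕜) : ‖S t z‖ ≤ ‖z‖ := by
  unfold S; split_ifs <;> simp

lemma norm_S_le' {t : ℝ} (ht : 0 ≤ t) (z : 𝕜) : ‖S t z‖ ≤ t := by
  unfold S; split_ifs with h
  · exact h
  · simpa using ht

lemma S_neg (t : ℝ) (z : 𝕜) : S t (-z) = - S t z := by
  unfold S; simp only [norm_neg]; split_ifs <;> simp

lemma S_mul {c : 𝕜} (hc : c ≠ 0) (t : ℝ) (z : 𝕜) : S t (c * z) = c * S (t / ‖c‖) z := by
  have h : 0 < ‖c‖ := norm_pos_iff.mpr hc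
  unfold S
  rw [norm_mul]
  have : (‖c‖ * ‖z‖ ≤ t) ↔ (‖z‖ ≤ t / ‖c‖) := by
    rw [le_div_iff₀ h, mul_comm]
  simp only [this]
  split_ifs <;> simp

lemma geom (s : ℝ) (hs : 0 < s) (M : ℝ) (hM : 0 ≤ M) (n : ℕ) :
    ∑ j ∈ range n, (if s * 2 ^ j < M then s * 2 ^ j else 0) ≤ 2 * M := by
  have h1 : ∀ n : ℕ, ∑ j ∈ range n, (if s * 2 ^ j < M then s * 2 ^ j else 0) ≤ s * 2 ^ n := by
    intro n
    induction n with
    | zero => simp [hs.le]
    | succ n ih =>
      rw [sum_range_succ, pow_succ]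
      have hp : 0 < s * 2 ^ n := by positivity
      split_ifs <;> nlinarith
  induction n with
  | zero => simp [hM]
  | succ n ih =>
    rw [sum_range_succ]
    split_ifs with h
    · have := h1 n
      linarith
    · linarith

lemma scal (a b : 𝕜) (s : ℝ) (hs : 0 < s) (n : ℕ) :
    ∑ j ∈ range n, ‖S (s * 2 ^ j) (a + b) - S (s * 2 ^ j) a - S (s * 2 ^ j) b‖
      ≤ 6 * (‖a‖ + ‖b‖) := by
  have hM : 0 ≤ ‖a‖ + ‖b‖ := by positivity
  have key : ∀ j ∈ range n, ‖S (s * 2 ^ j) (a + b) - S (s * 2 ^ j) a - S (s * 2 ^ j) b‖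
      ≤ 3 * (if s * 2 ^ j < ‖a‖ + ‖b‖ then s * 2 ^ j else 0) := by
    intro j _
    have hp : 0 ≤ s * 2 ^ j := by positivity
    split_ifs with h
    · have h1 := norm_S_le' hp (a + b)
      have h2 := norm_S_le' hp a
      have h3 := norm_S_le' hp b
      have h4 := norm_sub_le (S (s * 2 ^ j) (a + b) - S (s * 2 ^ j) a) (S (s * 2 ^ j) b)
      have h5 := norm_sub_le (S (s * 2 ^ j) (a + b)) (S (s * 2 ^ j) a)
      linarith
    · push Not at h
      have ha : ‖a‖ ≤ s * 2 ^ j := by have := norm_nonneg b; linarith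
      have hb : ‖b‖ ≤ s * 2 ^ j := by have := norm_nonneg a; linarith
      have hab : ‖a + b‖ ≤ s * 2 ^ j := (norm_add_le a b).trans h
      simp [S, ha, hb, hab]
  calc _ ≤ ∑ j ∈ range n, 3 * (if s * 2 ^ j < ‖a‖ + ‖b‖ then s * 2 ^ j else 0) :=
        sum_le_sum key
    _ = 3 * ∑ j ∈ range n, (if s * 2 ^ j < ‖a‖ + ‖b‖ then s * 2 ^ j else 0) := by
        rw [mul_sum]
    _ ≤ 3 * (2 * (‖a‖ + ‖b‖)) := by
        have := geom s hs _ hM n
        linarith
    _ = _ := by ring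

/-- the sequence space `ℓ₁` -/
abbrev E (𝕜 : Type) [RCLike 𝕜] := lp (fun _ : ℕ => 𝕜) 1

lemma summ (y : E 𝕜) : Summable fun n => ‖y n‖ := by
  have := (memℓp_gen_iff (p := 1) (by simp)).1 (lp.memℓp y)
  simpa using this

lemma norm_eq (y : E 𝕜) : ‖y‖ = ∑' n, ‖y n‖ := by
  have := lp.norm_eq_tsum_rpow (p := 1) (by simp) y
  simpa using this

lemma summS (t : ℝ) (y : E 𝕜) : Summable fun n => ‖S t (y n)‖ :=
  Summable.of_nonneg_of_le (fun _ => norm_nonneg _) (fun _ => norm_S_le _ _) (summ y)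

lemma summS' (t : ℝ) (y : E 𝕜) : Summable fun n => S t (y n) := (summS t y).of_norm

lemma summ' (y : E 𝕜) : Summable fun n => y n := (summ y).of_norm

/-- the defect of additivity -/
noncomputable def Δ (t : ℝ) (y : E 𝕜) : 𝕜 := (∑' n, S t (y n)) - S t (∑' n, y n)

lemma norm_tsum_le (y : E 𝕜) : ‖∑' n, y n‖ ≤ ‖y‖ := by
  rw [norm_eq]; exact norm_tsum_le_tsum_norm (summ y)

lemma norm_Δ_le (t : ℝ) (y : E 𝕜) : ‖Δ t y‖ ≤ 2 * ‖y‖ := by
  unfold Δ
  have h1 : ‖∑' n, S t (y n)‖ ≤ ‖y‖ := by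
    rw [norm_eq]
    exact (norm_tsum_le_tsum_norm (summS t y)).trans
      ((summS t y).tsum_le_tsum (fun n => norm_S_le t (y n)) (summ y))
  have h2 : ‖S t (∑' n, y n)‖ ≤ ‖y‖ := (norm_S_le _ _).trans (norm_tsum_le y)
  have := norm_sub_le (∑' n, S t (y n)) (S t (∑' n, y n))
  linarith

/-- finite partial sums of the second part of the quasi-norm -/
noncomputable def W (s : ℝ) (n : ℕ) (y : E 𝕜) : ℝ := ∑ j ∈ range n, ‖Δ (s * 2 ^ j) y‖

lemma W_nonneg (s : ℝ) (n : ℕ) (y : E 𝕜) : 0 ≤ W s n y := sum_nonneg fun _ _ => norm_nonneg _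

lemma W_le (s : ℝ) (n : ℕ) (y : E 𝕜) : W s n y ≤ n * (2 * ‖y‖) := by
  unfold W
  calc _ ≤ ∑ _j ∈ range n, 2 * ‖y‖ := sum_le_sum fun j _ => norm_Δ_le _ y
    _ = _ := by simp

lemma Δ_add (t : ℝ) (y z : E 𝕜) : ‖Δ t (y + z)‖ ≤ ‖Δ t y‖ + ‖Δ t z‖ +
    ((∑' n, ‖S t (y n + z n) - S t (y n) - S t (z n)‖) +
      ‖S t ((∑' n, y n) + ∑' n, z n) - S t (∑' n, y n) - S t (∑' n, z n)‖) := by
  have e1 : (∑' n, (y + z) n) = (∑' n, y n) + ∑' n, z n := by
    rw [← (summ' y).tsum_add (summ' z)]; rfl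
  have hs : Summable fun n => S t (y n + z n) - S t (y n) - S t (z n) :=
    ((summS' t (y + z)).sub (summS' t y)).sub (summS' t z)
  have hsn : Summable fun n => ‖S t (y n + z n) - S t (y n) - S t (z n)‖ := by
    refine Summable.of_nonneg_of_le (fun _ => norm_nonneg _) (fun n => ?_)
      (((summS t (y + z)).add (summS t y)).add (summS t z))
    have h4 := norm_sub_le (S t (y n + z n) - S t (y n)) (S t (z n))
    have h5 := norm_sub_le (S t (y n + z n)) (S t (y n))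
    have : (y + z) n = y n + z n := rfl
    simp only [this]
    linarith
  have e2 : (∑' n, S t ((y + z) n)) = (∑' n, S t (y n)) + (∑' n, S t (z n)) +
      ∑' n, (S t (y n + z n) - S t (y n) - S t (z n)) := by
    rw [← (summS' t y).tsum_add (summS' t z), ← ((summS' t y).add (summS' t z)).tsum_add hs]
    congr 1
    ext n
    have : (y + z) n = y n + z n := rfl
    rw [this]; ring
  have e3 : Δ t (y + z) = Δ t y + Δ t z +
      ((∑' n, (S t (y n + z n) - S t (y n) - S t (z n))) -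
      (S t ((∑' n, y n) + ∑' n, z n) - S t (∑' n, y n) - S t (∑' n, z n))) := by
    unfold Δ
    rw [e1, e2]; ring
  rw [e3]
  refine (norm_add_le _ _).trans ?_
  refine add_le_add (norm_add_le _ _) ?_
  refine (norm_sub_le _ _).trans ?_
  exact add_le_add (norm_tsum_le_tsum_norm hsn) le_rfl

lemma W_add (s : ℝ) (hs : 0 < s) (n : ℕ) (y z : E 𝕜) :
    W s n (y + z) ≤ W s n y + W s n z + 12 * (‖y‖ + ‖z‖) := by
  have hsn : ∀ t : ℝ, Summable fun n => ‖S t (y n + z n) - S t (y n) - S t (z n)‖ := by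
    intro t
    refine Summable.of_nonneg_of_le (fun _ => norm_nonneg _) (fun n => ?_)
      (((summS t (y + z)).add (summS t y)).add (summS t z))
    have h4 := norm_sub_le (S t (y n + z n) - S t (y n)) (S t (z n))
    have h5 := norm_sub_le (S t (y n + z n)) (S t (y n))
    have : (y + z) n = y n + z n := rfl
    simp only [this]
    linarith
  have hA : ∑ j ∈ range n, (∑' i, ‖S (s * 2 ^ j) (y i + z i) - S (s * 2 ^ j) (y i)
      - S (s * 2 ^ j) (z i)‖) ≤ 6 * (‖y‖ + ‖z‖) := by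
    rw [← Summable.tsum_finsetSum (fun j _ => hsn (s * 2 ^ j))]
    have hb : Summable fun i => 6 * (‖y i‖ + ‖z i‖) := ((summ y).add (summ z)).mul_left 6
    calc _ ≤ ∑' i, 6 * (‖y i‖ + ‖z i‖) := by
          refine Summable.tsum_le_tsum (fun i => scal (y i) (z i) s hs n) ?_ hb
          exact summable_sum (fun j _ => hsn (s * 2 ^ j))
      _ = 6 * (‖y‖ + ‖z‖) := by
          rw [tsum_mul_left, (summ y).tsum_add (summ z), norm_eq y, norm_eq z]
  have hB := scal (∑' i, y i) (∑' i, z i) s hs n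
  have h1 := norm_tsum_le y
  have h2 := norm_tsum_le z
  calc W s n (y + z) ≤ ∑ j ∈ range n, (‖Δ (s * 2 ^ j) y‖ + ‖Δ (s * 2 ^ j) z‖ +
      ((∑' i, ‖S (s * 2 ^ j) (y i + z i) - S (s * 2 ^ j) (y i) - S (s * 2 ^ j) (z i)‖) +
      ‖S (s * 2 ^ j) ((∑' i, y i) + ∑' i, z i) - S (s * 2 ^ j) (∑' i, y i)
        - S (s * 2 ^ j) (∑' i, z i)‖)) := sum_le_sum fun j _ => Δ_add _ y z
    _ = W s n y + W s n z + ((∑ j ∈ range n, (∑' i, ‖S (s * 2 ^ j) (y i + z i)
        - S (s * 2 ^ j) (y i) - S (s * 2 ^ j) (z i)‖)) +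
        ∑ j ∈ range n, ‖S (s * 2 ^ j) ((∑' i, y i) + ∑' i, z i) - S (s * 2 ^ j) (∑' i, y i)
        - S (s * 2 ^ j) (∑' i, z i)‖) := by
        rw [sum_add_distrib, sum_add_distrib, sum_add_distrib]; rfl
    _ ≤ _ := by linarith

lemma Δ_smul {c : 𝕜} (hc : c ≠ 0) (t : ℝ) (y : E 𝕜) : Δ t (c • y) = c * Δ (t / ‖c‖) y := by
  unfold Δ
  have h : ∀ n, (c • y) n = c * y n := fun n => rfl
  simp only [h, S_mul hc, tsum_mul_left]
  ring

lemma W_smul {c : 𝕜} (hc : c ≠ 0) (s : ℝ) (n : ℕ) (y : E 𝕜) :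
    W s n (c • y) = ‖c‖ * W (s / ‖c‖) n y := by
  unfold W
  rw [mul_sum]
  refine sum_congr rfl fun j _ => ?_
  rw [Δ_smul hc, norm_mul]
  congr 3
  ring

/-- the quasi-norm of `y` is at most `C` -/
def NLe (y : E 𝕜) (C : ℝ) : Prop := ∀ s : ℝ, 0 < s → ∀ n : ℕ, ‖y‖ + W s n y ≤ C

lemma NLe.norm_le {y : E 𝕜} {C : ℝ} (h : NLe y C) : ‖y‖ ≤ C := by
  have := h 1 one_pos 0
  simpa [W] using this

lemma NLe.mono {y : E 𝕜} {C C' : ℝ} (h : NLe y C) (hC : C ≤ C') : NLe y C' :=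
  fun s hs n => (h s hs n).trans hC

lemma NLe.add {y z : E 𝕜} {C C' : ℝ} (h : NLe y C) (h' : NLe z C') :
    NLe (y + z) (13 * (C + C')) := by
  intro s hs n
  have h1 := h s hs n
  have h2 := h' s hs n
  have h3 := W_add s hs n y z
  have h4 := norm_add_le y z
  have h5 := h.norm_le
  have h6 := h'.norm_le
  linarith

lemma NLe_zero : NLe (0 : E 𝕜) 0 := by
  intro s _ n
  have := W_le s n (0 : E 𝕜)
  simpa using this

lemma NLe.smul {y : E 𝕜} {C : ℝ} (h : NLe y C) (c : 𝕜) : NLe (c • y) (‖c‖ * C) := by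
  by_cases hc : c = 0
  · subst hc; simpa using NLe_zero
  · intro s hs n
    have hp : 0 < ‖c‖ := norm_pos_iff.mpr hc
    rw [W_smul hc, norm_smul, ← mul_add]
    exact mul_le_mul_of_nonneg_left (h _ (by positivity) n) hp.le

lemma NLe.neg {y : E 𝕜} {C : ℝ} (h : NLe y C) : NLe (-y) C := by
  have := h.smul (-1 : 𝕜)
  simpa using this

lemma NLe_of_Δ {y : E 𝕜} (h : ∀ t : ℝ, Δ t y = 0) : NLe y ‖y‖ := by
  intro s _ n
  simp [W, h]

/-- unit vectors -/
noncomputable def e (n : ℕ) : E 𝕜 := lp.single 1 n (1 : 𝕜)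

lemma e_apply (n j : ℕ) : (e n : E 𝕜) j = if j = n then 1 else 0 := by
  unfold e
  rw [lp.single_apply]
  by_cases h : j = n
  · subst h; simp
  · simp [h]

lemma norm_e (n : ℕ) : ‖(e n : E 𝕜)‖ = 1 := by
  unfold e; rw [lp.norm_single (by simp)]; simp

lemma Δ_e (t : ℝ) (n : ℕ) : Δ t (e n : E 𝕜) = 0 := by
  unfold Δ
  rw [tsum_eq_single n (by intro j hj; rw [e_apply, if_neg hj, S_zero]),
    tsum_eq_single n (by intro j hj; rw [e_apply, if_neg hj])]
  simp

/-- the underlying space of the example: the closure of the span of the unit vectors -/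
noncomputable def X (𝕜 : Type) [RCLike 𝕜] : Submodule 𝕜 (E 𝕜) where
  carrier := {y | ∀ ε > 0, ∃ g ∈ Submodule.span 𝕜 (Set.range (e : ℕ → E 𝕜)), NLe (y - g) ε}
  zero_mem' := by
    intro ε hε
    refine ⟨0, Submodule.zero_mem _, ?_⟩
    rw [sub_zero]
    exact NLe_zero.mono hε.le
  add_mem' := by
    intro y z hy hz ε hε
    obtain ⟨g, hg, hg'⟩ := hy (ε / 26) (by positivity)
    obtain ⟨k, hk, hk'⟩ := hz (ε / 26) (by positivity)
    refine ⟨g + k, Submodule.add_mem _ hg hk, ?_⟩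
    have := hg'.add hk'
    rw [show y + z - (g + k) = (y - g) + (z - k) by abel]
    exact this.mono (by linarith)
  smul_mem' := by
    intro c y hy ε hε
    obtain ⟨g, hg, hg'⟩ := hy (ε / (‖c‖ + 1)) (by positivity)
    refine ⟨c • g, Submodule.smul_mem _ c hg, ?_⟩
    rw [← smul_sub]
    refine (hg'.smul c).mono ?_
    rw [mul_div_assoc', div_le_iff₀ (by positivity)]
    nlinarith [norm_nonneg c]

lemma mem_X {y : E 𝕜} : y ∈ X 𝕜 ↔
    ∀ ε > 0, ∃ g ∈ Submodule.span 𝕜 (Set.range (e : ℕ → E 𝕜)), NLe (y - g) ε := Iff.rfl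

lemma span_le : Submodule.span 𝕜 (Set.range (e : ℕ → E 𝕜)) ≤ X 𝕜 := by
  intro g hg ε hε
  exact ⟨g, hg, by rw [sub_self]; exact NLe_zero.mono hε.le⟩

lemma exists_NLe_of_span {g : E 𝕜} (hg : g ∈ Submodule.span 𝕜 (Set.range (e : ℕ → E 𝕜))) :
    ∃ C, NLe g C := by
  induction hg using Submodule.span_induction with
  | mem x h =>
    obtain ⟨n, rfl⟩ := h
    exact ⟨_, NLe_of_Δ (fun t => Δ_e t n)⟩
  | zero => exact ⟨0, NLe_zero⟩
  | add x y _ _ hx hy =>
    obtain ⟨C, hC⟩ := hx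
    obtain ⟨C', hC'⟩ := hy
    exact ⟨_, hC.add hC'⟩
  | smul a x _ hx =>
    obtain ⟨C, hC⟩ := hx
    exact ⟨_, hC.smul a⟩

lemma exists_NLe {y : E 𝕜} (hy : y ∈ X 𝕜) : ∃ C, NLe y C := by
  obtain ⟨g, hg, hg'⟩ := hy 1 one_pos
  obtain ⟨C, hC⟩ := exists_NLe_of_span hg
  have h := hg'.add hC
  rw [sub_add_cancel] at h
  exact ⟨_, h⟩

/-- the quasi-norm -/
noncomputable def N (y : E 𝕜) : ℝ := ⨆ p : {s : ℝ // 0 < s} × ℕ, (‖y‖ + W p.1.1 p.2 y)

lemma N_le {y : E 𝕜} {C : ℝ} (h : NLe y C) : N y ≤ C := by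
  have : Nonempty ({s : ℝ // 0 < s} × ℕ) := ⟨(⟨1, one_pos⟩, 0)⟩
  exact ciSup_le fun p => h p.1.1 p.1.2 p.2

lemma NLe_N {y : E 𝕜} {C : ℝ} (h : NLe y C) : NLe y (N y) := by
  intro s hs n
  have hb : BddAbove (Set.range fun p : {s : ℝ // 0 < s} × ℕ => (‖y‖ + W p.1.1 p.2 y)) := by
    refine ⟨C, ?_⟩
    rintro _ ⟨p, rfl⟩
    exact h p.1.1 p.1.2 p.2
  exact le_ciSup hb (⟨s, hs⟩, n)

lemma NLe_N' {y : E 𝕜} (h : y ∈ X 𝕜) : NLe y (N y) := by
  obtain ⟨C, hC⟩ := exists_NLe h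
  exact NLe_N hC

lemma N_smul (c : 𝕜) {y : E 𝕜} (h : y ∈ X 𝕜) : N (c • y) = ‖c‖ * N y := by
  apply le_antisymm
  · exact N_le ((NLe_N' h).smul c)
  · by_cases hc : c = 0
    · subst hc
      have h0 : NLe ((0 : 𝕜) • y) 0 := by rw [zero_smul]; exact NLe_zero
      have := (NLe_N h0).norm_le
      simpa using this
    · have hp : 0 < ‖c‖ := norm_pos_iff.mpr hc
      have h1 : N y ≤ ‖c⁻¹‖ * N (c • y) := by
        have h2 := (NLe_N' ((X 𝕜).smul_mem c h)).smul c⁻¹
        rw [inv_smul_smul₀ hc] at h2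
        exact N_le h2
      rw [norm_inv] at h1
      calc ‖c‖ * N y ≤ ‖c‖ * (‖c‖⁻¹ * N (c • y)) := mul_le_mul_of_nonneg_left h1 hp.le
        _ = N (c • y) := by field_simp

/-- the quasi-norm on the example space -/
noncomputable def q (𝕜 : Type) [RCLike 𝕜] : QuasiNorm 𝕜 (X 𝕜) where
  val y := N (y : E 𝕜)
  nonneg y := (norm_nonneg (y : E 𝕜)).trans (NLe_N' y.2).norm_le
  eq_zero_of_val y h := by
    have h1 := (NLe_N' y.2).norm_le
    rw [h] at h1
    have : (y : E 𝕜) = 0 := norm_le_zero_iff.mp h1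
    exact Subtype.ext this
  smul c y := N_smul c y.2
  triangle := ⟨13, fun y z => N_le ((NLe_N' y.2).add (NLe_N' z.2))⟩

lemma complete : IsComplete (q 𝕜) := by
  intro u hu
  -- the sequence is Cauchy in ℓ₁
  have hc : CauchySeq (fun n => (u n : E 𝕜)) := by
    rw [Metric.cauchySeq_iff]
    intro ε hε
    obtain ⟨N₀, hN₀⟩ := hu ε hε
    refine ⟨N₀, fun m hm n hn => ?_⟩
    rw [dist_eq_norm]
    have h1 := (NLe_N' (u m - u n).2).norm_le
    have h2 := hN₀ m hm n hn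
    exact lt_of_le_of_lt h1 h2
  obtain ⟨y, hy⟩ := cauchySeq_tendsto_of_complete hc
  have key : ∀ ε > 0, ∃ N₀, ∀ n ≥ N₀, NLe ((u n : E 𝕜) - y) ε := by
    intro ε hε
    obtain ⟨N₀, hN₀⟩ := hu (ε / 26) (by positivity)
    refine ⟨N₀, fun k hk s hs n => ?_⟩
    have hδ : 0 < ε / 2 / (2 * n + 13) := by positivity
    obtain ⟨N₁, hN₁⟩ := (Metric.tendsto_atTop.1 hy) (ε / 2 / (2 * n + 13)) hδ
    set l := max N₀ N₁ with hl
    have h1 := hN₀ k hk l (le_max_left _ _)
    have h2 := hN₁ l (le_max_right _ _)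
    rw [dist_eq_norm] at h2
    have h3 : NLe ((u k : E 𝕜) - (u l : E 𝕜)) (ε / 26) := (NLe_N' (u k - u l).2).mono (le_of_lt h1)
    have h4 := W_add s hs n ((u k : E 𝕜) - (u l : E 𝕜)) ((u l : E 𝕜) - y)
    have h5 := h3 s hs n
    have h6 := W_le s n ((u l : E 𝕜) - y)
    have h7 := norm_add_le ((u k : E 𝕜) - (u l : E 𝕜)) ((u l : E 𝕜) - y)
    rw [sub_add_sub_cancel] at h4 h7
    have h8 := h3.norm_le
    have h9 := W_nonneg s n ((u k : E 𝕜) - (u l : E 𝕜))
    rw [lt_div_iff₀ (by positivity)] at h2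
    have h10 := norm_nonneg ((u l : E 𝕜) - y)
    nlinarith
  have hyX : y ∈ X 𝕜 := by
    intro ε hε
    obtain ⟨N₀, hN₀⟩ := key (ε / 26) (by positivity)
    obtain ⟨g, hg, hg'⟩ := (u N₀).2 (ε / 26) (by positivity)
    refine ⟨g, hg, ?_⟩
    have h1 := (hN₀ N₀ le_rfl).neg
    have h2 := h1.add hg'
    rw [show -((u N₀ : E 𝕜) - y) + ((u N₀ : E 𝕜) - g) = y - g by abel] at h2
    exact h2.mono (by linarith)
  refine ⟨⟨y, hyX⟩, fun ε hε => ?_⟩
  obtain ⟨N₀, hN₀⟩ := key (ε / 2) (by positivity)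
  refine ⟨N₀, fun n hn => ?_⟩
  have := N_le (hN₀ n hn)
  exact lt_of_le_of_lt this (by linarith)

/-- the basis -/
noncomputable def x (n : ℕ) : X 𝕜 := ⟨e n, span_le (Submodule.subset_span ⟨n, rfl⟩)⟩

/-- the coordinate functionals -/
noncomputable def f (n : ℕ) : X 𝕜 →ₗ[𝕜] 𝕜 where
  toFun y := (y : E 𝕜) n
  map_add' _ _ := rfl
  map_smul' _ _ := rfl

lemma coord_le (y : E 𝕜) (n : ℕ) : ‖y n‖ ≤ ‖y‖ := lp.norm_apply_le_norm (by simp) y n

lemma mbasis : IsMarkushevichBasis (q 𝕜) x f where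
  biorthogonal j n := e_apply n j
  dense := by
    intro v ε hε
    obtain ⟨g, hg, hg'⟩ := v.2 (ε / 2) (by positivity)
    refine ⟨⟨g, span_le hg⟩, ?_, ?_⟩
    · have : Submodule.span 𝕜 (Set.range (e : ℕ → E 𝕜)) =
          (Submodule.span 𝕜 (Set.range (x : ℕ → X 𝕜))).map (X 𝕜).subtype := by
        rw [Submodule.map_span]
        congr 1
        ext y
        simp only [Set.mem_range, Set.mem_image, Submodule.coe_subtype, exists_exists_eq_and]
        rfl
      rw [this] at hg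
      obtain ⟨w, hw, hw'⟩ := hg
      have : (⟨g, span_le (by rw [this]; exact ⟨w, hw, hw'⟩)⟩ : X 𝕜) = w := by
        apply Subtype.ext
        exact hw'.symm
      rw [this]
      exact hw
    · exact lt_of_le_of_lt (N_le hg') (by linarith)
  total := by
    intro v hv
    apply Subtype.ext
    apply lp.ext
    funext n
    exact hv n
  bounded := by
    refine ⟨1, fun n => ⟨?_, fun v => ?_⟩⟩
    · have h := N_le (NLe_of_Δ (fun t => Δ_e (𝕜 := 𝕜) t n))
      rw [norm_e] at h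
      exact h
    · rw [one_mul]
      exact (coord_le (v : E 𝕜) n).trans (NLe_N' v.2).norm_le

/-- finitely supported correction vector -/
lemma Δ_pairs (t : ℝ) (D : Finset ℕ) (π : ℕ → ℕ) (b : ℕ → 𝕜)
    (hinj : Set.InjOn π D) (hdis : ∀ n ∈ D, π n ∉ D) :
    Δ t (∑ n ∈ D, b n • (e n - e (π n)) : E 𝕜) = 0 := by
  classical
  set w : E 𝕜 := ∑ n ∈ D, b n • (e n - e (π n)) with hw
  have happ : ∀ j, w j = ∑ n ∈ D, b n * ((if j = n then 1 else 0) - (if j = π n then 1 else 0)) := by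
    intro j
    rw [hw, lp.coeFn_sum, Finset.sum_apply]
    refine sum_congr rfl fun n _ => ?_
    rw [lp.coeFn_smul, Pi.smul_apply, lp.coeFn_sub, Pi.sub_apply, e_apply, e_apply, smul_eq_mul]
  have h0 : ∀ j, j ∉ D ∪ D.image π → w j = 0 := by
    intro j hj
    rw [happ]
    refine sum_eq_zero fun n hn => ?_
    rw [mem_union, not_or, mem_image] at hj
    have ha : j ≠ n := fun h => hj.1 (h ▸ hn)
    have hb : j ≠ π n := fun h => hj.2 ⟨n, hn, h.symm⟩
    rw [if_neg ha, if_neg hb]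
    simp
  have h1 : ∀ n ∈ D, w n = b n := by
    intro n hn
    rw [happ, sum_eq_single n]
    · have ha : n ≠ π n := fun h => hdis n hn (h ▸ hn)
      rw [if_pos rfl, if_neg ha]; simp
    · intro k hk hkn
      have ha : n ≠ π k := fun h => hdis k hk (h ▸ hn)
      rw [if_neg (Ne.symm hkn), if_neg ha]; simp
    · exact fun h => absurd hn h
  have h2 : ∀ n ∈ D, w (π n) = - b n := by
    intro n hn
    rw [happ, sum_eq_single n]
    · have ha : π n ≠ n := fun h => hdis n hn (by rw [h]; exact hn)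
      rw [if_pos rfl, if_neg ha]; simp
    · intro k hk hkn
      have ha : π n ≠ k := fun h => hdis n hn (by rw [h]; exact hk)
      have hb : π n ≠ π k := fun h => hkn (hinj hk hn h.symm)
      rw [if_neg ha, if_neg hb]; simp
    · exact fun h => absurd hn h
  have hd : Disjoint D (D.image π) := by
    rw [Finset.disjoint_left]
    intro n hn hn'
    obtain ⟨k, hk, rfl⟩ := mem_image.1 hn'
    exact hdis k hk hn
  have hsum : ∀ F : 𝕜 → 𝕜, F 0 = 0 → (∀ z, F (-z) = - F z) → ∑' n, F (w n) = 0 := by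
    intro F hF0 hF
    rw [tsum_eq_sum (s := D ∪ D.image π) (fun j hj => by rw [h0 j hj, hF0]),
      sum_union hd, sum_image hinj, ← sum_add_distrib]
    refine sum_eq_zero fun n hn => ?_
    rw [h1 n hn, h2 n hn, hF]; ring
  unfold Δ
  rw [hsum (S t) (S_zero t) (S_neg t), hsum (fun z => z) rfl (fun _ => rfl), S_zero]
  simp

lemma norm_pairs (D : Finset ℕ) (π : ℕ → ℕ) (b : ℕ → 𝕜) :
    ‖(∑ n ∈ D, b n • (e n - e (π n)) : E 𝕜)‖ ≤ 2 * ∑ n ∈ D, ‖b n‖ := by
  refine (norm_sum_le _ _).trans ?_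
  rw [mul_sum]
  refine sum_le_sum fun n _ => ?_
  rw [norm_smul]
  have h := norm_sub_le (e n : E 𝕜) (e (π n))
  rw [norm_e, norm_e] at h
  nlinarith [norm_nonneg (b n)]

lemma sum_le_norm (y : E 𝕜) (F : Finset ℕ) : ∑ n ∈ F, ‖y n‖ ≤ ‖y‖ := by
  rw [norm_eq]
  exact (summ y).sum_le_tsum F (fun _ _ => norm_nonneg _)

/-- the key estimate -/
lemma key (v : X 𝕜) (A : Finset ℕ) (hA : IsGreedySet f v A) (B : Finset ℕ) (hB : B.card ≤ A.card)
    (b : ℕ → 𝕜) : ∃ a : ℕ → 𝕜,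
      (q 𝕜).val (v - ∑ n ∈ A, a n • x n) ≤ 39 * (q 𝕜).val (v - ∑ n ∈ B, b n • x n) := by
  classical
  -- an injection from `B \ A` to `A \ B`
  have hcard : (B \ A).card ≤ (A \ B).card := by
    have h1 := card_sdiff_add_card_inter B A
    have h2 := card_sdiff_add_card_inter A B
    rw [inter_comm] at h2
    omega
  obtain ⟨π', hπm, hπi⟩ : ∃ π' : ℕ → ℕ, (∀ n ∈ B \ A, π' n ∈ A \ B) ∧ Set.InjOn π' (B \ A : Finset ℕ) := by
    obtain ⟨T, hT, hTc⟩ := exists_subset_card_eq hcard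
    have hcc : Nonempty ((B \ A : Finset ℕ) ≃ T) := ⟨Finset.equivOfCardEq hTc.symm⟩
    obtain ⟨φ⟩ := hcc
    refine ⟨fun n => if h : n ∈ B \ A then φ ⟨n, h⟩ else 0, ?_, ?_⟩
    · intro n hn
      simp only [hn, dif_pos]
      exact hT (φ ⟨n, hn⟩).2
    · intro n hn k hk h
      rw [Finset.mem_coe] at hn hk
      simp only [hn, hk, dif_pos] at h
      have := φ.injective (Subtype.ext h)
      exact congrArg Subtype.val this
  set D := B \ A with hD
  have hdis : ∀ n ∈ D, π' n ∉ D := by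
    intro n hn h
    have h1 := hπm n hn
    rw [hD, mem_sdiff] at h
    rw [mem_sdiff] at h1
    exact h.2 h1.1
  set r : E 𝕜 := (v : E 𝕜) - ∑ n ∈ B, b n • e n with hr
  set w : E 𝕜 := ∑ n ∈ D, b n • (e n - e (π' n)) with hw
  have hrX : r ∈ X 𝕜 := by
    refine (X 𝕜).sub_mem v.2 ?_
    exact Submodule.sum_mem _ fun n _ => (X 𝕜).smul_mem _ (x n).2
  -- the coefficients
  refine ⟨fun m => (if m ∈ B then b m else 0) + ∑ n ∈ D, (if m = π' n then b n else 0), ?_⟩
  have hrw : ((v - ∑ m ∈ A, ((if m ∈ B then b m else 0) + ∑ n ∈ D, (if m = π' n then b n else 0))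
      • x m : X 𝕜) : E 𝕜) = r + w := by
    have e1 : (∑ m ∈ A, ((if m ∈ B then b m else 0) + ∑ n ∈ D, (if m = π' n then b n else 0))
        • (e m : E 𝕜)) = (∑ m ∈ A ∩ B, b m • e m) + ∑ n ∈ D, b n • e (π' n) := by
      simp only [add_smul, sum_add_distrib, sum_smul, ite_smul, zero_smul]
      congr 1
      · rw [← sum_filter, filter_mem_eq_inter]
      · rw [sum_comm]
        refine sum_congr rfl fun n hn => ?_
        rw [sum_ite_eq']
        have := (mem_sdiff.1 (hπm n hn)).1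
        rw [if_pos this]
    have e2 : (∑ n ∈ B, b n • (e n : E 𝕜)) = (∑ m ∈ A ∩ B, b m • e m) + ∑ n ∈ D, b n • e n := by
      rw [hD, inter_comm, ← sum_inter_add_sum_sdiff B A]
    have e3 : ((v - ∑ m ∈ A, ((if m ∈ B then b m else 0) + ∑ n ∈ D, (if m = π' n then b n else 0))
      • x m : X 𝕜) : E 𝕜) = (v : E 𝕜) - ∑ m ∈ A, ((if m ∈ B then b m else 0) +
        ∑ n ∈ D, (if m = π' n then b n else 0)) • (e m : E 𝕜) := by
      rw [Submodule.coe_sub, Submodule.coe_sum]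
      rfl
    rw [e3, e1, hr, hw, e2]
    simp only [smul_sub, sum_sub_distrib]
    abel
  have hbound : ∑ n ∈ D, ‖b n‖ ≤ ‖r‖ := by
    have hd : Disjoint D (D.image π') := by
      rw [Finset.disjoint_left]
      intro n hn hn'
      obtain ⟨k, hk, rfl⟩ := mem_image.1 hn'
      exact hdis k hk hn
    have happ : ∀ j, r j = (v : E 𝕜) j - (if j ∈ B then b j else 0) := by
      intro j
      rw [hr, lp.coeFn_sub, Pi.sub_apply, lp.coeFn_sum, Finset.sum_apply]
      congr 1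
      have : ∀ n ∈ B, (b n • (e n : E 𝕜)) j = if j = n then b n else 0 := by
        intro n _
        rw [lp.coeFn_smul, Pi.smul_apply, e_apply, smul_eq_mul]
        split_ifs <;> simp
      rw [sum_congr rfl this, sum_ite_eq]
    have h1 : ∀ n ∈ D, ‖b n‖ ≤ ‖r n‖ + ‖r (π' n)‖ := by
      intro n hn
      have hnB : n ∈ B := (mem_sdiff.1 hn).1
      have hnA : n ∉ A := (mem_sdiff.1 hn).2
      have hπA : π' n ∈ A := (mem_sdiff.1 (hπm n hn)).1
      have hπB : π' n ∉ B := (mem_sdiff.1 (hπm n hn)).2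
      have h2 : ‖(v : E 𝕜) n‖ ≤ ‖(v : E 𝕜) (π' n)‖ := hA (π' n) hπA n hnA
      have h3 : r (π' n) = (v : E 𝕜) (π' n) := by rw [happ, if_neg hπB, sub_zero]
      have h4 : b n = (v : E 𝕜) n - r n := by rw [happ, if_pos hnB]; ring
      rw [h3]
      calc ‖b n‖ = ‖(v : E 𝕜) n - r n‖ := by rw [← h4]
        _ ≤ ‖(v : E 𝕜) n‖ + ‖r n‖ := norm_sub_le _ _
        _ ≤ _ := by linarith
    calc _ ≤ ∑ n ∈ D, (‖r n‖ + ‖r (π' n)‖) := sum_le_sum h1
      _ = ∑ n ∈ D ∪ D.image π', ‖r n‖ := by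
          rw [sum_union hd, sum_image hπi, sum_add_distrib]
      _ ≤ ‖r‖ := sum_le_norm r _
  have hrN : NLe r (N r) := NLe_N' hrX
  have hwN : NLe w (2 * N r) := by
    have h1 := NLe_of_Δ (fun t => Δ_pairs t D π' b hπi hdis)
    refine h1.mono ?_
    have h2 := norm_pairs D π' b
    have h3 := hrN.norm_le
    linarith
  have hfin := N_le (hrN.add hwN)
  have hr' : (q 𝕜).val (v - ∑ n ∈ B, b n • x n) = N r := by
    have : ((v - ∑ n ∈ B, b n • x n : X 𝕜) : E 𝕜) = r := by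
      rw [Submodule.coe_sub, Submodule.coe_sum, hr]
      rfl
    change N ((v - ∑ n ∈ B, b n • x n : X 𝕜) : E 𝕜) = N r
    rw [this]
  rw [hr']
  change N ((v - ∑ m ∈ A, ((if m ∈ B then b m else 0) + ∑ n ∈ D, (if m = π' n then b n else 0))
      • x m : X 𝕜) : E 𝕜) ≤ 39 * N r
  rw [hrw]
  linarith

lemma semiGreedy : IsSemiGreedy (q 𝕜) x f := by
  classical
  refine ⟨78, fun v A hA => ?_⟩
  set R := {r : ℝ | ∃ (B : Finset ℕ) (a : ℕ → 𝕜), B.card ≤ A.card ∧
    r = (q 𝕜).val (v - ∑ n ∈ B, a n • x n)} with hR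
  have hne : R.Nonempty := ⟨_, ∅, 0, by simp, rfl⟩
  have hpos : ∀ r ∈ R, 0 ≤ r := by
    rintro r ⟨B, a, _, rfl⟩
    exact (q 𝕜).nonneg _
  by_cases h0 : 0 < bestError (q 𝕜) x A.card v
  · have h1 : sInf R < 2 * bestError (q 𝕜) x A.card v := by
      change bestError (q 𝕜) x A.card v < _
      linarith
    obtain ⟨r, ⟨B, b, hB, rfl⟩, hr⟩ := exists_lt_of_csInf_lt hne h1
    obtain ⟨a, ha⟩ := key v A hA B hB b
    exact ⟨a, by linarith⟩
  · -- then `v` is supported in `A`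
    push Not at h0
    have hsupp : ∀ j, j ∉ A → (v : E 𝕜) j = 0 := by
      intro j hj
      by_contra hne0
      have hδ : 0 < ‖(v : E 𝕜) j‖ := norm_pos_iff.mpr hne0
      have h2 : ‖(v : E 𝕜) j‖ ≤ sInf R := by
        refine le_csInf hne ?_
        rintro r ⟨B, b, hB, rfl⟩
        have hex : ∃ n ∈ insert j A, n ∉ B := by
          by_contra hcon
          push Not at hcon
          have : (insert j A).card ≤ B.card := card_le_card hcon
          rw [card_insert_of_notMem hj] at this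
          omega
        obtain ⟨n, hn, hnB⟩ := hex
        have h3 : ‖(v : E 𝕜) j‖ ≤ ‖(v : E 𝕜) n‖ := by
          rcases mem_insert.1 hn with rfl | hn
          · exact le_rfl
          · exact hA n hn j hj
        have h4 : f n (v - ∑ n ∈ B, b n • x n) = (v : E 𝕜) n := by
          rw [map_sub, map_sum]
          have : ∀ k ∈ B, f n (b k • (x k : X 𝕜)) = 0 := by
            intro k hk
            rw [map_smul]
            have hnk : n ≠ k := fun h => hnB (h ▸ hk)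
            have : f n (x k : X 𝕜) = 0 := by
              rw [mbasis.biorthogonal, if_neg hnk]
            rw [this, smul_zero]
          rw [sum_eq_zero this, sub_zero]
          rfl
        have h5 : ‖f n (v - ∑ n ∈ B, b n • x n)‖ ≤ (q 𝕜).val (v - ∑ n ∈ B, b n • x n) :=
          (coord_le _ n).trans (NLe_N' (v - ∑ n ∈ B, b n • x n).2).norm_le
        rw [h4] at h5
        linarith
      have h6 : sInf R ≤ 0 := h0
      linarith
    have hz : v - ∑ n ∈ A, (v : E 𝕜) n • x n = 0 := by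
      apply mbasis.total
      intro j
      rw [map_sub, map_sum]
      have : ∀ k ∈ A, f j ((v : E 𝕜) k • (x k : X 𝕜)) = if j = k then (v : E 𝕜) k else 0 := by
        intro k _
        rw [map_smul, mbasis.biorthogonal]
        split_ifs <;> simp
      rw [sum_congr rfl this, sum_ite_eq]
      split_ifs with hj
      · exact sub_self _
      · have := hsupp j hj
        rw [sub_zero]
        exact this
    refine ⟨fun n => (v : E 𝕜) n, ?_⟩
    rw [hz]
    have h7 : (q 𝕜).val 0 = 0 := by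
      have := (q 𝕜).smul 0 0
      simpa using this
    rw [h7]
    have h8 : 0 ≤ bestError (q 𝕜) x A.card v := le_csInf hne hpos
    linarith

lemma not_almostGreedy : ¬ IsAlmostGreedy (q 𝕜) x f := by
  classical
  rintro ⟨C, hC⟩
  obtain ⟨k, hk⟩ := exists_nat_gt (2 * C)
  set m := 2 ^ k with hm
  have hmpos : (0 : ℝ) < m := by rw [hm]; positivity
  set v : X 𝕜 := ∑ n ∈ range m, (x n - x (m + n)) with hv
  have hfx : ∀ j n, f j (x n : X 𝕜) = if j = n then 1 else 0 := mbasis.biorthogonal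
  have hfv : ∀ j, f j v = (if j < m then 1 else 0) - (if m ≤ j ∧ j < 2 * m then 1 else 0) := by
    intro j
    rw [hv, map_sum]
    simp only [map_sub, hfx, sum_sub_distrib]
    congr 1
    · rw [sum_ite_eq]; simp
    · by_cases h : m ≤ j ∧ j < 2 * m
      · rw [if_pos h, sum_eq_single (j - m)]
        · rw [if_pos (by omega)]
        · intro b _ hb
          rw [if_neg (by omega)]
        · intro hb
          exact absurd (mem_range.2 (by omega)) hb
      · rw [if_neg h]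
        refine sum_eq_zero fun n hn => ?_
        rw [mem_range] at hn
        rw [if_neg (by omega)]
  have hgreedy : IsGreedySet f v (range m) := by
    intro n hn j hj
    rw [mem_range] at hn hj
    rw [hfv, hfv, if_neg hj, if_pos hn, if_neg (by omega : ¬ (m ≤ n ∧ n < 2 * m))]
    split_ifs <;> simp
  have h1 := hC v (range m) hgreedy ∅ (by simp)
  -- upper bound for the quasi-norm of `v`
  have hvN : (q 𝕜).val v ≤ 2 * m := by
    have hvE : (v : E 𝕜) = ∑ n ∈ range m, (1 : 𝕜) • (e n - e (m + n)) := by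
      rw [hv, Submodule.coe_sum]
      refine sum_congr rfl fun n _ => ?_
      rw [one_smul]; rfl
    have h2 : NLe (v : E 𝕜) ‖(v : E 𝕜)‖ := by
      apply NLe_of_Δ
      intro t
      rw [hvE]
      refine Δ_pairs t (range m) (fun n => m + n) (fun _ => 1) ?_ ?_
      · intro a _ b _ h
        simpa using h
      · intro n _ h
        rw [mem_range] at h
        omega
    have h3 : ‖(v : E 𝕜)‖ ≤ 2 * m := by
      rw [hvE]
      have := norm_pairs (𝕜 := 𝕜) (range m) (fun n => m + n) (fun _ => 1)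
      simpa using this
    exact (N_le h2).trans h3
  -- lower bound after the greedy projection
  clear_value v
  set z : X 𝕜 := v - ∑ n ∈ range m, f n v • x n with hz
  have hzc : ∀ j, (z : E 𝕜) j = if m ≤ j ∧ j < 2 * m then -1 else 0 := by
    intro j
    have : (z : E 𝕜) j = f j z := rfl
    rw [this, hz, map_sub, map_sum]
    have h2 : ∀ n ∈ range m, f j (f n v • (x n : X 𝕜)) = if j = n then f n v else 0 := by
      intro n _
      rw [map_smul, hfx]
      split_ifs <;> simp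
    rw [sum_congr rfl h2, sum_ite_eq, hfv]
    simp only [mem_range]
    by_cases h3 : j < m
    · have h4 : ¬ (m ≤ j ∧ j < 2 * m) := by omega
      simp [h3, h4]
    · simp only [h3, if_false]
      split_ifs <;> simp
  have hzsum : ∀ F : 𝕜 → 𝕜, F 0 = 0 → ∑' j, F ((z : E 𝕜) j) = m * F (-1) := by
    intro F hF
    rw [tsum_eq_sum (s := Ico m (2 * m))]
    · rw [sum_congr rfl (fun j hj => by
        rw [hzc, if_pos (by rw [mem_Ico] at hj; exact hj)] : ∀ j ∈ Ico m (2 * m),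
          F ((z : E 𝕜) j) = F (-1))]
      rw [sum_const, Nat.card_Ico, nsmul_eq_mul]
      congr 2
      omega
    · intro j hj
      rw [hzc, if_neg (by rw [mem_Ico] at hj; exact hj), hF]
  have hΔ : ∀ j ∈ range k, ‖Δ ((1 : ℝ) * 2 ^ j) (z : E 𝕜)‖ = m := by
    intro j hj
    rw [mem_range] at hj
    have hjm : (2 : ℝ) ^ j < m := by
      rw [hm]; push_cast
      exact pow_lt_pow_right₀ (by norm_num) hj
    unfold Δ
    rw [hzsum (S (1 * 2 ^ j)) (S_zero _), hzsum (fun z => z) rfl]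
    have h1j : (1 : ℝ) ≤ 2 ^ j := one_le_pow₀ (by norm_num)
    have e1 : S (1 * 2 ^ j) (-1 : 𝕜) = -1 := by
      unfold S
      rw [if_pos (by simpa using h1j)]
    have e2 : S (1 * 2 ^ j) ((m : 𝕜) * -1) = 0 := by
      unfold S
      rw [if_neg]
      rw [norm_mul, norm_neg, norm_one, mul_one, RCLike.norm_natCast]
      push Not
      rw [one_mul]
      exact hjm
    rw [e1, e2]
    simp
  have hlow : (k : ℝ) * m ≤ (q 𝕜).val z := by
    have h2 := NLe_N' z.2 1 one_pos k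
    have h3 : W 1 k (z : E 𝕜) = k * m := by
      unfold W
      rw [sum_congr rfl hΔ]
      simp
    have h4 := norm_nonneg (z : E 𝕜)
    rw [h3] at h2
    exact le_trans (by linarith) h2
  rw [sum_empty, sub_zero] at h1
  have hC0 : 0 ≤ C := by
    by_contra hneg
    push Not at hneg
    have h5 : (q 𝕜).val v = 0 := by
      have h6 := (q 𝕜).nonneg v
      have h7 := (q 𝕜).nonneg (v - ∑ n ∈ range m, f n v • x n)
      nlinarith
    have h8 := (q 𝕜).eq_zero_of_val v h5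
    have h9 := hfv 0
    rw [h8, map_zero, if_pos (by rw [hm]; positivity), if_neg] at h9
    · simp at h9
    · rw [hm]
      intro h
      have : 0 < 2 ^ k := by positivity
      omega
  have h10 : (k : ℝ) * m ≤ C * (2 * m) := by
    calc (k : ℝ) * m ≤ (q 𝕜).val z := hlow
      _ ≤ C * (q 𝕜).val v := h1
      _ ≤ C * (2 * m) := mul_le_mul_of_nonneg_left hvN hC0
  nlinarith

end construction

/-- There is a quasi-Banach space (over the real or over the complex field) with a Markushevich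
basis which is semi-greedy but not almost-greedy. -/
theorem result : ∀ (𝕜 : Type) [RCLike 𝕜],
    ∃ (X : Type) (_ : AddCommGroup X) (_ : Module 𝕜 X) (q : QuasiNorm 𝕜 X) (x : ℕ → X)
      (f : ℕ → (X →ₗ[𝕜] 𝕜)),
      IsComplete q ∧ IsMarkushevichBasis q x f ∧ IsSemiGreedy q x f ∧ ¬ IsAlmostGreedy q x f := by
  intro 𝕜 _
  exact ⟨X 𝕜, inferInstance, inferInstance, q 𝕜, x, f, complete, mbasis, semiGreedy,
    not_almostGreedy⟩

end Pool.Agent.Results.MP_f45ea1_an.SemiGreedyNotAlmostGreedy
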